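import Pool.Agent.L5helper7.AC.Lines
import Pool.Agent.N381.AC.Rel
import Pool.Agent.Y607.LP.Digits

set_option autoImplicit false
set_option maxHeartbeats 400000

/-!
# Circuits on the digits of an integer
-/

namespace Pool.Agent.L5helper7.AC

open Finset hiding ext
open Function
open Pool.Agent.N381.AC

section comap
variable {w n : ℕ} {L L' : Type}

/-- the circuit on the words `g ∘ x` -/
def comap (g : L' → L) (C : Circuit w L n) : Circuit w L' n where
  Node := C.Node
  finite := C.finite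
  val := fun v x => C.val v (fun i => g (x i))
  depth := C.depth
  rule := by
    intro v
    rcases C.rule v with ⟨i, S, hS⟩ | ⟨J, hJd, hJ⟩
    · exact Or.inl ⟨i, g ⁻¹' S, fun x => hS _⟩
    · refine Or.inr ⟨J, hJd, ?_⟩
      rcases hJ with ⟨hc, F, hF⟩ | h | h
      · exact Or.inl ⟨hc, F, fun x => hF _⟩
      · exact Or.inr (Or.inl fun x => h _)
      · exact Or.inr (Or.inr fun x => h _)

end comap

section digits
variable {b n : ℕ}

/-- the integer with the digits `x` -/
def nm (x : Fin n → ZMod b) : ℕ := ∑ i, (x i).val * b ^ (i : ℕ)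

variable [NeZero b]

/-- digits as elements of `Fin b` -/
def toF (x : Fin n → ZMod b) : Fin n → Fin b := fun i => ⟨(x i).val, ZMod.val_lt _⟩

theorem nm_toF (x : Fin n → ZMod b) : nm x = Y607.LP.num (toF x) := by
  rw [Y607.LP.num_eq]
  rfl

theorem nm_lt (x : Fin n → ZMod b) : nm x < b ^ n := by
  rw [nm_toF]
  exact Y607.LP.num_lt _

theorem nm_digit (x : Fin n → ZMod b) (i : Fin n) : nm x / b ^ (i : ℕ) % b = (x i).val := by
  rw [nm_toF, Y607.LP.digit_num]
  rfl

theorem nm_injective : Injective (nm : (Fin n → ZMod b) → ℕ) := by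
  intro x y h
  funext i
  apply ZMod.val_injective
  rw [← nm_digit x i, ← nm_digit y i, h]

theorem nm_surj {a : ℕ} (ha : a < b ^ n) : ∃ x : Fin n → ZMod b, nm x = a := by
  obtain ⟨y, hy⟩ := Y607.LP.num_surj (b := b) (n := n) ha
  refine ⟨fun i => ((y i : ℕ) : ZMod b), ?_⟩
  rw [← hy, Y607.LP.num_eq, nm]
  apply sum_congr rfl
  intro i _
  rw [ZMod.val_natCast_of_lt (y i).2]

/-- the words of a set of integers -/
def wd (b n : ℕ) [NeZero b] (A : Finset ℕ) : Finset (Fin n → ZMod b) :=
  univ.filter fun x => nm x ∈ A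

theorem mem_wd {A : Finset ℕ} {x : Fin n → ZMod b} : x ∈ wd b n A ↔ nm x ∈ A := by
  simp [wd]

theorem card_wd {A : Finset ℕ} (hA : ∀ a ∈ A, a < b ^ n) : (wd b n A).card = A.card := by
  classical
  have h1 : (wd b n A).image nm = A := by
    ext a
    rw [mem_image]
    constructor
    · rintro ⟨x, hx, rfl⟩
      exact mem_wd.1 hx
    · intro ha
      obtain ⟨x, rfl⟩ := nm_surj (hA a ha)
      exact ⟨x, mem_wd.2 ha, rfl⟩
  conv_rhs => rw [← h1]
  rw [card_image_of_injective _ nm_injective]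

/-- adding to the digits at the places of `W` without carry -/
theorem nm_add (x : Fin n → ZMod b) (W : Finset (Fin n)) (j : ℕ)
    (h : ∀ i ∈ W, (x i).val + j < b) :
    nm (fun i => if i ∈ W then x i + (j : ZMod b) else x i) =
      nm x + j * ∑ i ∈ W, b ^ (i : ℕ) := by
  classical
  have h1 : ∀ i, (if i ∈ W then x i + (j : ZMod b) else x i).val * b ^ (i : ℕ) =
      (x i).val * b ^ (i : ℕ) + (if i ∈ W then j * b ^ (i : ℕ) else 0) := by
    intro i
    by_cases hi : i ∈ W
    · have h2 := h i hi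
      have hj : j < b := by omega
      have h3 : (x i + (j : ZMod b)).val = (x i).val + j := by
        rw [ZMod.val_add_of_lt, ZMod.val_natCast_of_lt hj]
        rwa [ZMod.val_natCast_of_lt hj]
      rw [if_pos hi, if_pos hi, h3]
      ring
    · rw [if_neg hi, if_neg hi, add_zero]
  unfold nm
  rw [sum_congr rfl fun i _ => h1 i, sum_add_distrib, mul_sum, ← sum_filter]
  congr 2
  ext i
  simp

theorem digits_le_one (hb : 2 ≤ b) (W : Finset (Fin n)) (i : ℕ) :
    (∑ i ∈ W, b ^ (i : ℕ)) / b ^ i % b ≤ 1 := by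
  classical
  have e : ∑ i ∈ W, b ^ (i : ℕ) = nm (fun i : Fin n => if i ∈ W then (1 : ZMod b) else 0) := by
    unfold nm
    have : ∀ i : Fin n, (if i ∈ W then (1 : ZMod b) else 0).val * b ^ (i : ℕ) =
        if i ∈ W then b ^ (i : ℕ) else 0 := by
      intro i
      by_cases hi : i ∈ W
      · have : Fact (1 < b) := ⟨hb⟩
        rw [if_pos hi, if_pos hi, ZMod.val_one, one_mul]
      · rw [if_neg hi, if_neg hi, ZMod.val_zero, zero_mul]
    rw [sum_congr rfl fun i _ => this i, ← sum_filter]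
    congr 1
    ext i
    simp
  rw [e]
  by_cases hi : i < n
  · have := nm_digit (fun i : Fin n => if i ∈ W then (1 : ZMod b) else 0) ⟨i, hi⟩
    simp only at this
    rw [this]
    split_ifs
    · have : Fact (1 < b) := ⟨hb⟩
      rw [ZMod.val_one]
    · rw [ZMod.val_zero]
      exact Nat.zero_le _
  · have h1 : nm (fun i : Fin n => if i ∈ W then (1 : ZMod b) else 0) < b ^ i :=
      lt_of_lt_of_le (nm_lt _) (Nat.pow_le_pow_right (by omega) (by omega))
    rw [Nat.div_eq_of_lt h1]
    simp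

end digits

section blocks
variable {b n m : ℕ} [NeZero b]

theorem ext_add {L : Type} [AddCommGroup L] (hm : 0 < m) (j : ℕ) (s t : Fin m → L) :
    ext n hm j (s + t) = ext n hm j s + ext n hm j t := by
  funext i
  by_cases h : (i : ℕ) / m = j <;> simp [ext, h]

/-- the block of `z` -/
def blk {L : Type} [Zero L] (m j : ℕ) (z : Fin n → L) : Fin m → L :=
  fun t => if h : j * m + (t : ℕ) < n then z ⟨j * m + t, h⟩ else 0

theorem ext_blk {L : Type} [AddCommGroup L] (hm : 0 < m) (j : ℕ) (z : Fin n → L) (i : Fin n)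
    (h : (i : ℕ) / m = j) : ext n hm j (blk m j z) i = z i := by
  unfold ext blk
  rw [if_pos h]
  have e : j * m + (i : ℕ) % m = i := by
    rw [← h, mul_comm]
    exact Nat.div_add_mod _ _
  simp only [e]
  rw [dif_pos i.2]

/-- a word with zeros in the block -/
theorem split_block {L : Type} [AddCommGroup L] (hm : 0 < m) (j : ℕ) (z : Fin n → L) :
    ∃ z₀ : Fin n → L, (∀ i : Fin n, (i : ℕ) / m = j → z₀ i = 0) ∧
      z = z₀ + ext n hm j (blk m j z) := by
  refine ⟨z - ext n hm j (blk m j z), ?_, by simp⟩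
  intro i hi
  rw [Pi.sub_apply, ext_blk hm j z i hi, sub_self]

theorem slice_card {L : Type} [Fintype L] [DecidableEq L] [AddCommGroup L] (hm : 0 < m) (j r : ℕ)
    (A : Finset (Fin n → L))
    (h : ∀ z₀ : Fin n → L, (∀ i : Fin n, (i : ℕ) / m = j → z₀ i = 0) →
      (univ.filter fun t : Fin m → L => z₀ + ext n hm j t ∈ A).card ≤ r) (z : Fin n → L) :
    (univ.filter fun t : Fin m → L => z + ext n hm j t ∈ A).card ≤ r := by
  obtain ⟨z₀, h0, hz⟩ := split_block hm j z
  refine le_trans (le_of_eq ?_) (h z₀ h0)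
  symm
  rw [card_filter, card_filter, ← Equiv.sum_comp (Equiv.addLeft (blk m j z))]
  apply sum_congr rfl
  intro t _
  have e : z₀ + ext n hm j ((Equiv.addLeft (blk m j z)) t) = z + ext n hm j t := by
    rw [Equiv.coe_addLeft, ext_add, ← add_assoc, ← hz]
  rw [e]

theorem nm_block (hm : 0 < m) {j : ℕ} (hj : j < n / m) {z₀ : Fin n → ZMod b}
    (h0 : ∀ i : Fin n, (i : ℕ) / m = j → z₀ i = 0) (t : Fin m → ZMod b) :
    nm (z₀ + ext n hm j t) = nm z₀ + b ^ (j * m) * nm t := by
  classical
  have h1 : ∀ i : Fin n, ((z₀ + ext n hm j t) i).val * b ^ (i : ℕ) =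
      (z₀ i).val * b ^ (i : ℕ) + (if (i : ℕ) / m = j then
        (t ⟨(i : ℕ) % m, Nat.mod_lt _ hm⟩).val * b ^ (i : ℕ) else 0) := by
    intro i
    by_cases h : (i : ℕ) / m = j
    · rw [if_pos h, Pi.add_apply, h0 i h, ext, if_pos h, ZMod.val_zero]
      simp
    · rw [if_neg h, Pi.add_apply, ext, if_neg h, add_zero, add_zero]
  have hle : (j + 1) * m ≤ n := by
    have h2 : (j + 1) * m ≤ n / m * m := Nat.mul_le_mul_right _ hj
    exact h2.trans (Nat.div_mul_le_self n m)
  have hlt : ∀ s : Fin m, j * m + (s : ℕ) < n := by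
    intro s
    have h3 := s.2
    have h4 : (j + 1) * m = j * m + m := by ring
    omega
  unfold nm
  rw [sum_congr rfl fun i _ => h1 i, sum_add_distrib, ← sum_filter, mul_sum]
  congr 1
  symm
  refine sum_bij (fun (s : Fin m) _ => (⟨j * m + s, hlt s⟩ : Fin n)) ?_ ?_ ?_ ?_
  · intro s _
    rw [mem_filter]
    refine ⟨mem_univ _, ?_⟩
    show (j * m + (s : ℕ)) / m = j
    rw [mul_comm, Nat.mul_add_div hm, Nat.div_eq_of_lt s.2, add_zero]
  · intro s _ s' _ h
    have := congrArg Fin.val h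
    simp only at this
    exact Fin.ext (by omega)
  · intro i hi
    have hi' := (mem_filter.1 hi).2
    refine ⟨⟨(i : ℕ) % m, Nat.mod_lt _ hm⟩, mem_univ _, ?_⟩
    apply Fin.ext
    show j * m + (i : ℕ) % m = i
    rw [← hi', mul_comm]
    exact Nat.div_add_mod _ _
  · intro s _
    have e : (⟨(j * m + (s : ℕ)) % m, Nat.mod_lt _ hm⟩ : Fin m) = s := by
      apply Fin.ext
      show (j * m + (s : ℕ)) % m = s
      rw [mul_comm, Nat.mul_add_mod, Nat.mod_eq_of_lt s.2]
    simp only [e]
    rw [pow_add]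
    ring

end blocks

end Pool.Agent.L5helper7.AC
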