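import Pool.Agent.N381.AC.Poly

set_option autoImplicit false
set_option maxHeartbeats 400000

/-!
# Patterns with a condition on the letters, in supports of polynomials in circuits

A variant of `Pool.Agent.N381.AC.poly_bound`: the patterns change the letters of `x` only at places
where the letter of `x` lies in a given set `Z` of letters.
-/

namespace Pool.Agent.L5helper7.AC

open Finset Function H568R2 Pool.Agent.TH163.AC3 Pool.Agent.Y603.MS Y347.CO N381.AC

section functional
variable {n : ℕ} {K : Type} [Field K]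

/-- fix the stars outside of `S` to be `0` -/
def fixOut (S : Finset (Fin n)) (ρ : Restr (Fin n)) : Restr (Fin n) :=
  fun i => if ρ i = none ∧ i ∉ S then some false else ρ i

theorem fixOut_in {S : Finset (Fin n)} {ρ : Restr (Fin n)} {x : Fin n → Bool}
    (h : InC (fixOut S ρ) x) : InC ρ x := by
  intro i b hi
  apply h i b
  unfold fixOut
  rw [if_neg, hi]
  rintro ⟨h1, -⟩
  rw [hi] at h1
  cases h1

theorem fixOut_base (S : Finset (Fin n)) (ρ : Restr (Fin n)) :
    basePt (fixOut S ρ) = basePt ρ := by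
  funext i
  unfold basePt fixOut
  by_cases h : ρ i = none ∧ i ∉ S
  · rw [if_pos h, h.1]
    simp
  · rw [if_neg h]

theorem fixOut_none {S : Finset (Fin n)} {ρ : Restr (Fin n)} {i : Fin n} :
    fixOut S ρ i = none ↔ ρ i = none ∧ i ∈ S := by
  unfold fixOut
  by_cases h : ρ i = none ∧ i ∉ S
  · rw [if_pos h]
    constructor
    · intro h'
      cases h'
    · intro h'
      exact absurd h'.2 h.2
  · rw [if_neg h]
    constructor
    · intro h'
      refine ⟨h', ?_⟩
      by_contra hS
      exact h ⟨h', hS⟩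
    · exact fun h' => h'.1

/-- functions of low degree on a smaller cube -/
theorem US_fixOut (S : Finset (Fin n)) {ρ : Restr (Fin n)} {D : ℕ} {F : (Fin n → ZMod 2) → K}
    (hF : F ∈ US K ρ D) : chi K (fixOut S ρ) ∅ * F ∈ US K (fixOut S ρ) D := by
  classical
  unfold US at hF
  induction hF using Submodule.span_induction with
  | mem f hf =>
    obtain ⟨⟨s, h1, h2⟩, rfl⟩ := hf
    by_cases hs : s ⊆ freeS (fixOut S ρ)
    · have e : chi K (fixOut S ρ) ∅ * chi K ρ s = chi K (fixOut S ρ) s := by
        funext y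
        rw [Pi.mul_apply]
        unfold chi
        by_cases hC : InC (fixOut S ρ) (bits2 y)
        · rw [if_pos hC, if_pos hC, if_pos (fixOut_in hC), prod_empty, one_mul]
        · rw [if_neg hC, if_neg hC, zero_mul]
      show chi K (fixOut S ρ) ∅ * chi K ρ s ∈ _
      rw [e]
      exact chi_mem _ hs h2
    · rw [Finset.not_subset] at hs
      obtain ⟨i, hi, his⟩ := hs
      have hρ : ρ i = none := (mem_filter.1 (h1 hi)).2
      have hf : fixOut S ρ i = some false := by
        unfold fixOut
        rw [if_pos]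
        refine ⟨hρ, fun hiS => his ?_⟩
        exact mem_filter.2 ⟨mem_univ _, fixOut_none.2 ⟨hρ, hiS⟩⟩
      have e : chi K (fixOut S ρ) ∅ * chi K ρ s = 0 := by
        funext y
        rw [Pi.mul_apply, Pi.zero_apply]
        unfold chi
        by_cases hC : InC (fixOut S ρ) (bits2 y)
        · rw [if_pos hC, if_pos (fixOut_in hC), prod_empty, one_mul]
          apply prod_eq_zero hi
          have h3 := hC i false hf
          unfold bt
          rw [if_neg]
          intro h4
          unfold bits2 at h3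
          rw [h4] at h3
          simp at h3
        · rw [if_neg hC, zero_mul]
      show chi K (fixOut S ρ) ∅ * chi K ρ s ∈ _
      rw [e]
      exact Submodule.zero_mem _
  | zero => simp
  | add f g _ _ hf hg =>
    rw [mul_add]
    exact Submodule.add_mem _ hf hg
  | smul c f _ hf =>
    rw [mul_smul_comm]
    exact Submodule.smul_mem _ _ hf

theorem US_fixOut' (S : Finset (Fin n)) {ρ : Restr (Fin n)} {D : ℕ} {f : (Fin n → ZMod 2) → K}
    (hf : chi K ρ ∅ * f ∈ US K ρ D) : chi K (fixOut S ρ) ∅ * f ∈ US K (fixOut S ρ) D := by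
  have h := US_fixOut S hf
  have e : chi K (fixOut S ρ) ∅ * (chi K ρ ∅ * f) = chi K (fixOut S ρ) ∅ * f := by
    funext y
    rw [Pi.mul_apply, Pi.mul_apply, Pi.mul_apply]
    by_cases hC : InC (fixOut S ρ) (bits2 y)
    · rw [chi_one hC, chi_one (fixOut_in hC), one_mul, one_mul]
    · rw [chi_zero hC, zero_mul, zero_mul]
  rwa [e] at h

end functional

section average
variable {n : ℕ} {L : Type} [Fintype L] [DecidableEq L]

theorem fr_fixOut (ρ : Restr (Fin n)) (Z : Finset L) (x : Fin n → L) :
    fr (fixOut (univ.filter fun i => x i ∈ Z) ρ) =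
      (univ.filter fun i => ρ i = none ∧ x i ∈ Z).card := by
  unfold fr
  congr 1
  ext i
  rw [mem_filter, mem_filter, fixOut_none, mem_filter]
  simp

/-- the average over the words and the restrictions -/
theorem Ex_letters (n : ℕ) (Z : Finset L) (p : ℝ) :
    Ex (wq p) (fun ρ : Restr (Fin n) => ∑ x : Fin n → L,
      (1 / 2 : ℝ) ^ fr (fixOut (univ.filter fun i => x i ∈ Z) ρ)) =
      ((Fintype.card L : ℝ) - p * Z.card / 2) ^ n := by
  classical
  have h1 : ∀ ρ : Restr (Fin n), ∑ x : Fin n → L,
      (1 / 2 : ℝ) ^ fr (fixOut (univ.filter fun i => x i ∈ Z) ρ) =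
      ∏ i, ((Fintype.card L : ℝ) - (if ρ i = none then (Z.card : ℝ) / 2 else 0)) := by
    intro ρ
    have h2 : ∀ x : Fin n → L, (1 / 2 : ℝ) ^ fr (fixOut (univ.filter fun i => x i ∈ Z) ρ) =
        ∏ i, (if ρ i = none ∧ x i ∈ Z then (1 / 2 : ℝ) else 1) := by
      intro x
      rw [fr_fixOut, ← prod_const, prod_filter]
    rw [sum_congr rfl fun x _ => h2 x]
    have h3 := (Fintype.piFinset_univ (α := Fin n) (β := fun _ => L))
    have h4 := prod_univ_sum (fun _ : Fin n => (univ : Finset L))
      (fun i a => (if ρ i = none ∧ a ∈ Z then (1 / 2 : ℝ) else 1))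
    rw [h3] at h4
    rw [← h4]
    apply prod_congr rfl
    intro i _
    by_cases hi : ρ i = none
    · rw [if_pos hi]
      have e : ∀ a : L, (if ρ i = none ∧ a ∈ Z then (1 / 2 : ℝ) else 1) =
          1 - (if a ∈ Z then (1 / 2 : ℝ) else 0) := by
        intro a
        by_cases ha : a ∈ Z
        · rw [if_pos ⟨hi, ha⟩, if_pos ha]; norm_num
        · rw [if_neg fun h => ha h.2, if_neg ha]; norm_num
      rw [sum_congr rfl fun a _ => e a, sum_sub_distrib, sum_const, card_univ, nsmul_eq_mul,
        mul_one, ← sum_filter, sum_const, nsmul_eq_mul]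
      have e2 : univ.filter (fun a => a ∈ Z) = Z := by ext a; simp
      rw [e2]
      ring
    · rw [if_neg hi]
      have e : ∀ a : L, (if ρ i = none ∧ a ∈ Z then (1 / 2 : ℝ) else 1) = 1 := by
        intro a
        rw [if_neg fun h => hi h.1]
      rw [sum_congr rfl fun a _ => e a, sum_const, card_univ, nsmul_eq_mul]
      ring
  unfold Ex
  have h5 : ∀ ρ : Restr (Fin n), (∏ i, wq p (ρ i)) * ∑ x : Fin n → L,
      (1 / 2 : ℝ) ^ fr (fixOut (univ.filter fun i => x i ∈ Z) ρ) =
      ∏ i, (wq p (ρ i) *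
        ((Fintype.card L : ℝ) - (if ρ i = none then (Z.card : ℝ) / 2 else 0))) := by
    intro ρ
    rw [h1, prod_mul_distrib]
  rw [sum_congr rfl fun ρ _ => h5 ρ, sum_prod_restr (fun _ o => wq p o *
    ((Fintype.card L : ℝ) - (if o = none then (Z.card : ℝ) / 2 else 0)))]
  have h6 : ∑ o : Option Bool, wq p o *
      ((Fintype.card L : ℝ) - (if o = none then (Z.card : ℝ) / 2 else 0)) =
      (Fintype.card L : ℝ) - p * Z.card / 2 := by
    rw [Fintype.sum_option, Fintype.sum_bool]
    simp [wq]
    ring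
  rw [prod_congr rfl fun i _ => h6, prod_const, card_univ, Fintype.card_fin]

end average

section main
variable {n k : ℕ} {L : Type} [Fintype L] [DecidableEq L]

/-- Sets without patterns which are supports of polynomials in circuits; the patterns change only
letters in `Z`. -/
theorem poly_main {K : Type} [Field K] {w ℓ d t T q : ℕ} (hℓ : 1 ≤ ℓ) (hw : 1 ≤ w) (ht : 1 ≤ t)
    (π : Fin k → Fin n → Equiv.Perm L) (Z : Finset L) (A : Finset (Fin n → L))
    (hA : ∀ (x : Fin n → L) (W : Finset (Fin n)), (∀ i ∈ W, x i ∈ Z) →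
      (∀ j, mix (π j) W x ∈ A) → W = ∅)
    (C : Fin T → Circuit w L n) (o : ∀ i, (C i).Node)
    (hs : ∀ i, n + Nat.card (C i).Node ≤ 2 ^ ℓ) (hd : ∀ i v, (C i).depth v ≤ d)
    (P : MvPolynomial (Fin T) K) (hP : P.totalDegree ≤ q)
    (hval : ∀ x, x ∈ A ↔
      MvPolynomial.eval (fun i => if (C i).val (o i) x = true then (1 : K) else 0) P ≠ 0) :
    (A.card : ℝ) ≤ 2 ^ (k * (q * ((d + 1) * t + ℓ))) *
      ((Fintype.card L : ℝ) -
        1 / (((2 ^ (d + 1 + 9) * (w * ℓ)) ^ (d + 1) : ℕ) : ℝ) * Z.card / 2) ^ n +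
        (Fintype.card L : ℝ) ^ n * (k * T * (1 / 2) ^ (2 * t + (d + 1) + 1)) := by
  classical
  -- the Boolean circuits
  have hbp : ∀ (j : Fin k) (u : Fin n → L) (i : Fin T), _ := fun j u i =>
    bad_prob (t := t) ((C i).sub hw (two (π j) u)) (sub_leak _ _ _) hℓ hw ht
      (by rw [sub_card]; exact hs i) (sub_depth (C i) hw (two (π j) u) (hd i))
      (subOut (C i) hw (two (π j) u) (o i))
  choose Q hQ1 hQ2 using hbp
  obtain ⟨p, hp⟩ : ∃ p : ℝ, p = 1 / (((2 ^ (d + 1 + 9) * (w * ℓ)) ^ (d + 1) : ℕ) : ℝ) := ⟨_, rfl⟩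
  have hK1 : (1 : ℝ) ≤ (((2 ^ (d + 1 + 9) * (w * ℓ)) ^ (d + 1) : ℕ) : ℝ) := by
    have : 0 < w * ℓ := Nat.mul_pos hw hℓ
    exact_mod_cast Nat.one_le_iff_ne_zero.2 (by positivity)
  have hp0 : 0 ≤ p := by rw [hp]; positivity
  have hp1 : p ≤ 1 := by
    rw [hp, div_le_one (by linarith)]
    exact hK1
  rw [← hp]
  obtain ⟨D, hD⟩ : ∃ D : ℕ, D = q * ((d + 1) * t + ℓ) := ⟨_, rfl⟩
  rw [← hD]
  obtain ⟨bad, hbad⟩ : ∃ bad : Fin k → Fin T → (Fin n → L) → Restr (Fin n) → ℝ,
      ∀ j i u ρ, bad j i u ρ = if ¬ Dt (Q j u i) ((d + 1) * t) ρ then (1 : ℝ) else 0 :=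
    ⟨fun j i u ρ => if ¬ Dt (Q j u i) ((d + 1) * t) ρ then (1 : ℝ) else 0, fun _ _ _ _ => rfl⟩
  have hbad0 : ∀ j i u ρ, 0 ≤ bad j i u ρ := by
    intro j i u ρ
    rw [hbad]
    split_ifs <;> norm_num
  -- the pointwise estimate
  have hpt : ∀ (ρ : Restr (Fin n)) (x : Fin n → L), x ∈ A →
      (1 : ℝ) ≤ 2 ^ (k * D) * (1 / 2) ^ fr (fixOut (univ.filter fun i => x i ∈ Z) ρ) +
        ∑ j, ∑ i, bad j i (back (π j) ρ x) ρ := by
    intro ρ x hx
    obtain ⟨S, hS⟩ : ∃ S : Finset (Fin n), S = univ.filter fun i => x i ∈ Z := ⟨_, rfl⟩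
    rw [← hS]
    by_cases hall : ∀ j i, Dt (Q j (back (π j) ρ x) i) ((d + 1) * t) ρ
    · have hfr : fr (fixOut S ρ) ≤ k * D := by
        by_contra hcon
        push Not at hcon
        let f : Fin k → (Fin n → ZMod 2) → K := fun j y =>
          pv P (fun i => ((C i).sub hw (two (π j) (back (π j) ρ x))).val
            (subOut (C i) hw (two (π j) (back (π j) ρ x)) (o i))) (bits2 y)
        have hf : ∀ j, (chi K ρ ∅ * f j) ∈ US K ρ D := by
          intro j
          rw [hD]
          refine US_poly ρ P hP _ fun i => ?_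
          have h1 := US_dt ρ (hQ1 j (back (π j) ρ x) i) (hall j i) 0 (chi K ρ ∅)
            (chi_mem ρ (empty_subset _) (by simp)) (by
              intro y hy
              by_contra hcon
              exact hy (chi_zero hcon))
          rwa [zero_add] at h1
        have hf' : ∀ j, (chi K (fixOut S ρ) ∅ * f j) ∈ US K (fixOut S ρ) D :=
          fun j => US_fixOut' S (hf j)
        have hfv : ∀ j y, InC (fixOut S ρ) (bits2 y) → (f j y ≠ 0 ↔
            mix (π j) (univ.filter fun i => y i ≠ basePt (fixOut S ρ) i) x ∈ A) := by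
          intro j y hy
          rw [fixOut_base, hval, ← word (π j) ρ x y (fixOut_in hy)]
          rfl
        obtain ⟨j, -, hj⟩ := point univ f hf' (by rwa [card_univ, Fintype.card_fin]) (by
          intro y hy hne
          by_contra hcon2
          push Not at hcon2
          have h2 := hA x (univ.filter fun i => y i ≠ basePt (fixOut S ρ) i) (by
            intro i hi
            have hi' := (mem_filter.1 hi).2
            by_contra hiZ
            have hiS : i ∉ S := by
              rw [hS]
              exact fun h => hiZ (mem_filter.1 h).2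
            apply hi'
            cases hρ : ρ i with
            | none =>
              have e : fixOut S ρ i = some false := by
                unfold fixOut
                rw [if_pos ⟨hρ, hiS⟩]
              have h3 := hy i false e
              have h5 := basePt_in (fixOut S ρ) i false e
              unfold bits2 at h3 h5
              have h6 := of_decide_eq_false h3
              have h7 := of_decide_eq_false h5
              rw [(zmod2_cases (y i)).resolve_right h6,
                (zmod2_cases (basePt (fixOut S ρ) i)).resolve_right h7]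
            | some b =>
              have e : fixOut S ρ i = some b := by
                unfold fixOut
                rw [if_neg, hρ]
                rintro ⟨h1, -⟩
                rw [hρ] at h1
                cases h1
              have h3 := hy i b e
              have h5 := basePt_in (fixOut S ρ) i b e
              cases b with
              | true =>
                unfold bits2 at h3 h5
                rw [of_decide_eq_true h3, of_decide_eq_true h5]
              | false =>
                unfold bits2 at h3 h5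
                rw [(zmod2_cases (y i)).resolve_right (of_decide_eq_false h3),
                  (zmod2_cases (basePt (fixOut S ρ) i)).resolve_right (of_decide_eq_false h5)])
            fun j => (hfv j y hy).1 (hcon2 j (mem_univ _))
          apply hne
          funext i
          by_contra h3
          have : i ∈ (univ.filter fun i => y i ≠ basePt (fixOut S ρ) i) :=
            mem_filter.2 ⟨mem_univ _, h3⟩
          rw [h2] at this
          exact absurd this (notMem_empty _))
        have h4 := (hfv j (basePt (fixOut S ρ)) (basePt_in (fixOut S ρ))).2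
        have e : mix (π j) (univ.filter fun i => basePt (fixOut S ρ) i ≠
            basePt (fixOut S ρ) i) x = x := by
          funext i
          unfold mix
          rw [if_neg]
          simp
        rw [e] at h4
        exact h4 hx hj
      have h1 : (1 : ℝ) ≤ 2 ^ (k * D) * (1 / 2) ^ fr (fixOut S ρ) := by
        calc (1 : ℝ) = 2 ^ (k * D) * (1 / 2) ^ (k * D) := by rw [← mul_pow]; norm_num
          _ ≤ _ := mul_le_mul_of_nonneg_left
            (pow_le_pow_of_le_one (by norm_num) (by norm_num) hfr) (by positivity)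
      have h2 : (0 : ℝ) ≤ ∑ j, ∑ i, bad j i (back (π j) ρ x) ρ :=
        sum_nonneg fun j _ => sum_nonneg fun i _ => hbad0 _ _ _ _
      linarith
    · push Not at hall
      obtain ⟨j, i, hji⟩ := hall
      have h1 : (1 : ℝ) ≤ ∑ i, bad j i (back (π j) ρ x) ρ := by
        have := single_le_sum (f := fun i => bad j i (back (π j) ρ x) ρ)
          (fun i _ => hbad0 _ _ _ _) (mem_univ i)
        refine le_trans (le_of_eq ?_) this
        show 1 = bad j i (back (π j) ρ x) ρ
        rw [hbad, if_pos hji]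
      have h2 := single_le_sum (f := fun j => ∑ i, bad j i (back (π j) ρ x) ρ)
          (fun j _ => sum_nonneg fun i _ => hbad0 _ _ _ _) (mem_univ j)
      have h3 : (0 : ℝ) ≤ 2 ^ (k * D) * (1 / 2) ^ fr (fixOut S ρ) := by positivity
      have h2' : ∑ i, bad j i (back (π j) ρ x) ρ ≤ ∑ j, ∑ i, bad j i (back (π j) ρ x) ρ := h2
      linarith
  have hsum : ∀ ρ : Restr (Fin n), (A.card : ℝ) ≤ 2 ^ (k * D) * (∑ x : Fin n → L,
      (1 / 2) ^ fr (fixOut (univ.filter fun i => x i ∈ Z) ρ)) +
      ∑ j, ∑ i, ∑ u, bad j i u ρ := by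
    intro ρ
    have h1 := sum_le_sum fun x (hx : x ∈ A) => hpt ρ x hx
    rw [sum_const, nsmul_eq_mul, mul_one, sum_add_distrib] at h1
    refine h1.trans (add_le_add ?_ ?_)
    · rw [mul_sum]
      exact sum_le_sum_of_subset_of_nonneg (subset_univ _) fun x _ _ => by positivity
    calc ∑ x ∈ A, ∑ j, ∑ i, bad j i (back (π j) ρ x) ρ ≤
        ∑ x, ∑ j, ∑ i, bad j i (back (π j) ρ x) ρ :=
          sum_le_sum_of_subset_of_nonneg (subset_univ _) fun x _ _ =>
            sum_nonneg fun j _ => sum_nonneg fun i _ => hbad0 _ _ _ _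
      _ = ∑ j, ∑ i, ∑ x, bad j i (back (π j) ρ x) ρ := by
          rw [sum_comm]
          apply sum_congr rfl
          intro j _
          rw [sum_comm]
      _ = _ := by
          apply sum_congr rfl
          intro j _
          apply sum_congr rfl
          intro i _
          exact Equiv.sum_comp (back (π j) ρ) fun u => bad j i u ρ
  have hEx := Ex_mono (wq_nonneg hp0 hp1) hsum
  rw [Ex_const (wq_sum p), Ex_add, Ex_smul, Ex_letters, Ex_sum] at hEx
  have hb : ∀ j : Fin k, Ex (wq p) (fun ρ : Restr (Fin n) => ∑ i, ∑ u, bad j i u ρ) ≤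
      T * ((Fintype.card L : ℝ) ^ n * (1 / 2) ^ (2 * t + (d + 1) + 1)) := by
    intro j
    rw [Ex_sum]
    have h1 : ∀ i ∈ (univ : Finset (Fin T)), Ex (wq p) (fun ρ : Restr (Fin n) =>
        ∑ u, bad j i u ρ) ≤ (Fintype.card L : ℝ) ^ n * (1 / 2) ^ (2 * t + (d + 1) + 1) := by
      intro i _
      rw [Ex_sum]
      have h2 : ∀ u ∈ (univ : Finset (Fin n → L)), Ex (wq p) (fun ρ : Restr (Fin n) =>
          bad j i u ρ) ≤ (1 / 2) ^ (2 * t + (d + 1) + 1) := by
        intro u _
        have := hQ2 j u i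
        rw [← hp] at this
        refine le_trans (le_of_eq ?_) this
        congr 1
        funext ρ
        exact hbad j i u ρ
      refine (sum_le_sum h2).trans (le_of_eq ?_)
      rw [sum_const, card_univ, Fintype.card_pi, prod_const, card_univ, Fintype.card_fin,
        nsmul_eq_mul]
      push_cast
      rfl
    refine (sum_le_sum h1).trans (le_of_eq ?_)
    rw [sum_const, card_univ, Fintype.card_fin, nsmul_eq_mul]
  have hb' := sum_le_sum fun j (_ : j ∈ (univ : Finset (Fin k))) => hb j
  rw [sum_const, card_univ, Fintype.card_fin, nsmul_eq_mul] at hb'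
  have e : (Fintype.card L : ℝ) ^ n * (k * T * (1 / 2) ^ (2 * t + (d + 1) + 1)) =
      k * (T * ((Fintype.card L : ℝ) ^ n * (1 / 2) ^ (2 * t + (d + 1) + 1))) := by ring
  rw [e]
  linarith

/-- the numerical form, if `Z` contains at least one `κ`-th of the letters -/
theorem poly_bound {K : Type} [Field K] {w ℓ d T q : ℕ} (hℓ : 1 ≤ ℓ) (hw : 1 ≤ w)
    (π : Fin k → Fin n → Equiv.Perm L) (Z : Finset L) {κ : ℕ} (hκ : 1 ≤ κ)
    (hZ : Fintype.card L ≤ κ * Z.card) (A : Finset (Fin n → L))
    (hA : ∀ (x : Fin n → L) (W : Finset (Fin n)), (∀ i ∈ W, x i ∈ Z) →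
      (∀ j, mix (π j) W x ∈ A) → W = ∅)
    (C : Fin T → Circuit w L n) (o : ∀ i, (C i).Node)
    (hs : ∀ i, n + Nat.card (C i).Node ≤ 2 ^ ℓ) (hd : ∀ i v, (C i).depth v ≤ d)
    (P : MvPolynomial (Fin T) K) (hP : P.totalDegree ≤ q)
    (hval : ∀ x, x ∈ A ↔
      MvPolynomial.eval (fun i => if (C i).val (o i) x = true then (1 : K) else 0) P ≠ 0) :
    (A.card : ℝ) ≤ 4 * (4 ^ (k * q * ℓ) + k * T) * (Fintype.card L : ℝ) ^ n *
      (2 : ℝ) ^ (-((n : ℝ) / (2 * (k * q * (d + 1) + 1) *
        (κ * (2 ^ (d + 10) * (w * ℓ)) ^ (d + 1))))) := by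
  classical
  set N := (2 ^ (d + 1 + 9) * (w * ℓ)) ^ (d + 1) with hN
  have hN1 : 1 ≤ N := by
    have : 0 < w * ℓ := Nat.mul_pos hw hℓ
    exact Nat.one_le_iff_ne_zero.2 (by positivity)
  rcases Nat.eq_zero_or_pos (Fintype.card L ^ n) with h0 | hpos
  · have : A.card = 0 := by
      have := card_le_univ A
      rw [Fintype.card_pi, prod_const, card_univ, Fintype.card_fin, h0] at this
      omega
    rw [this, Nat.cast_zero]
    positivity
  have hpos' : (0 : ℝ) < (Fintype.card L : ℝ) ^ n := by exact_mod_cast hpos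
  have hcA : (A.card : ℝ) ≤ (Fintype.card L : ℝ) ^ n := by
    have := card_le_univ A
    rw [Fintype.card_pi, prod_const, card_univ, Fintype.card_fin] at this
    exact_mod_cast this
  have h4 : (0 : ℝ) < 4 ^ n := by positivity
  have hκ' : (1 : ℝ) ≤ κ := by exact_mod_cast hκ
  have hN' : (1 : ℝ) ≤ N := by exact_mod_cast hN1
  have hZL : (Z.card : ℝ) ≤ Fintype.card L := by exact_mod_cast card_le_univ Z
  have hZ' : (Fintype.card L : ℝ) ≤ κ * Z.card := by exact_mod_cast hZ
  have hL0 : (0 : ℝ) ≤ Fintype.card L := Nat.cast_nonneg _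
  have hZ0 : (0 : ℝ) ≤ Z.card := Nat.cast_nonneg _
  -- the base
  have hbase0 : 0 ≤ (Fintype.card L : ℝ) - 1 / (N : ℝ) * Z.card / 2 := by
    have h1 : 1 / (N : ℝ) * Z.card ≤ 1 * Z.card :=
      mul_le_mul_of_nonneg_right (by rw [div_le_one (by linarith)]; exact hN') hZ0
    linarith
  have hbase : (Fintype.card L : ℝ) - 1 / (N : ℝ) * Z.card / 2 ≤
      (Fintype.card L : ℝ) * (1 - 3 / 8 * (1 / ((κ * N : ℕ) : ℝ))) := by
    push_cast
    have h1 : (Fintype.card L : ℝ) * (1 / (κ * N)) ≤ 1 / (N : ℝ) * Z.card := by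
      rw [mul_one_div, div_le_iff₀ (by positivity)]
      calc (Fintype.card L : ℝ) ≤ κ * Z.card := hZ'
        _ = 1 / (N : ℝ) * Z.card * (κ * N) := by field_simp
    have h2 : 0 ≤ (Fintype.card L : ℝ) * (1 / (κ * N)) := by positivity
    linarith
  have key := lines_num n (d + 1) (k * T) (k * q) ℓ (κ * N) (Nat.mul_pos hκ hN1)
    (4 ^ n * (A.card / (Fintype.card L : ℝ) ^ n))
    (by
      have : (A.card : ℝ) / (Fintype.card L : ℝ) ^ n ≤ 1 := by
        rw [div_le_one hpos']
        exact hcA
      nlinarith)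
    (by
      intro t ht
      have h := poly_main (K := K) hℓ hw ht π Z A hA C o hs hd P hP hval
      rw [← hN] at h
      refine mul_le_mul_of_nonneg_left ?_ h4.le
      rw [div_le_iff₀ hpos', mul_comm, mul_add]
      refine h.trans (add_le_add ?_ ?_)
      · have h1 : ((Fintype.card L : ℝ) - 1 / (N : ℝ) * Z.card / 2) ^ n ≤
            ((Fintype.card L : ℝ) * (1 - 3 / 8 * (1 / ((κ * N : ℕ) : ℝ)))) ^ n :=
          pow_le_pow_left₀ hbase0 hbase n
        rw [mul_pow] at h1
        have e : (2 : ℝ) ^ (k * (q * ((d + 1) * t + ℓ))) ≤ 4 ^ (k * q * ((d + 1) * t + ℓ)) := by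
          rw [← mul_assoc]
          exact pow_le_pow_left₀ (by norm_num) (by norm_num) _
        calc _ ≤ (4 : ℝ) ^ (k * q * ((d + 1) * t + ℓ)) * ((Fintype.card L : ℝ) ^ n *
              (1 - 3 / 8 * (1 / ((κ * N : ℕ) : ℝ))) ^ n) :=
              mul_le_mul e h1 (pow_nonneg hbase0 _) (by positivity)
          _ = _ := by ring
      · push_cast
        exact le_rfl)
  have e1 : (A.card : ℝ) = (Fintype.card L : ℝ) ^ n * (4 ^ n * (A.card / (Fintype.card L : ℝ) ^ n)) /
      4 ^ n := by
    field_simp
  rw [e1, div_le_iff₀ h4]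
  refine (mul_le_mul_of_nonneg_left key hpos'.le).trans (le_of_eq ?_)
  rw [hN]
  push_cast
  rw [show d + 1 + 9 = d + 10 by ring, pow_succ (4 : ℝ) n]
  ring

end main

end Pool.Agent.L5helper7.AC
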